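import Pool.Agent.helper24.ISL.Spec

/-!
# Row isl:CLO (MP_512a69_al): closure in `SL_n(F)`
-/

set_option autoImplicit false

namespace Pool.Agent.ISL

open Matrix Filter Topology

theorem CLO_ind (n : ℕ) (F : Type) [NormedField F] :
    IsInducing (fun g : SL n F => (fun i j => g i j : Fin n → Fin n → F)) :=
  (Matrix.SpecialLinearGroup.isClosedEmbedding_val (n := Fin n) (R := F)).isInducing

theorem CLO : CLO_stmt := by
  intro n F _ _ V g
  rw [(CLO_ind n F).closure_eq_preimage_closure_image, Set.mem_preimage, Metric.mem_closure_iff]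
  constructor
  · intro h δ hδ
    obtain ⟨_, ⟨_, ⟨x, hx, rfl⟩, rfl⟩, hd⟩ := h δ hδ
    refine ⟨x, hx, fun i j => ?_⟩
    have h1 := (dist_pi_lt_iff hδ).1 ((dist_pi_lt_iff hδ).1 hd i) j
    rw [dist_comm, dist_eq_norm] at h1
    exact h1
  · intro h δ hδ
    obtain ⟨x, hx, hxg⟩ := h δ hδ
    refine ⟨_, ⟨_, ⟨x, hx, rfl⟩, rfl⟩, ?_⟩
    rw [dist_pi_lt_iff hδ]
    intro i
    rw [dist_pi_lt_iff hδ]
    intro j
    rw [dist_comm, dist_eq_norm]
    exact hxg i j

end Pool.Agent.ISL
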