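import Pool.Agent.helper24.ISL.Spec

/-!
# Row isl:MAIN (MP_512a69_al)
-/

set_option autoImplicit false

namespace Pool.Agent.ISL

open Matrix Filter Topology

theorem MAIN_int (hIZ : IZ_stmt) {n : ℕ} (m : ℕ) (hm : 0 < m) (x : SL n ℚ)
    (hx : ∀ i j, Dv ∅ m (x i j - (1 : Mat n ℚ) i j)) :
    ∃ γ : SL n ℤ, (∀ i j, (m : ℤ) ∣ γ i j - (1 : Mat n ℤ) i j) ∧
      Matrix.SpecialLinearGroup.map (Int.castRingHom ℚ) γ = x := by
  choose a ha using fun i j => (hIZ m hm _).1 (hx i j)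
  let G : Mat n ℤ := Matrix.of fun i j => (1 : Mat n ℤ) i j + m * a i j
  have hG : G.map (Int.castRingHom ℚ) = (x : Mat n ℚ) := by
    ext i j
    show ((((1 : Mat n ℤ) i j + m * a i j : ℤ)) : ℚ) = x i j
    have h1 := ha i j
    have h2 : (((1 : Mat n ℤ) i j : ℤ) : ℚ) = (1 : Mat n ℚ) i j := by
      rw [Matrix.one_apply, Matrix.one_apply]
      split_ifs <;> simp
    push_cast
    rw [h2]
    linear_combination -h1
  have hdet : G.det = 1 := by
    have h1 : ((G.det : ℤ) : ℚ) = 1 := by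
      have h2 := (Int.castRingHom ℚ).map_det G
      rw [RingHom.mapMatrix_apply, hG, x.det_coe] at h2
      exact h2
    exact_mod_cast h1
  refine ⟨⟨G, hdet⟩, fun i j => ⟨a i j, ?_⟩, ?_⟩
  · show (1 : Mat n ℤ) i j + m * a i j - (1 : Mat n ℤ) i j = m * a i j
    ring
  · apply Subtype.ext
    exact hG

theorem MAIN (h1 : NI_stmt) (h2 : NP_stmt) (h3 : NQ_stmt) (h4 : PRD_stmt) (h5 : IZ_stmt)
    (h6 : FI_stmt) : MAIN_stmt := by
  intro n hn H hH
  have key1 : ∀ m : ℕ, 0 < m → ∀ g : SL n ℚ, ∃ h ∈ H, ∃ γ : SL n ℤ,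
      (∀ i j, (m : ℤ) ∣ γ i j - (1 : Mat n ℤ) i j) ∧
      g = h * Matrix.SpecialLinearGroup.map (Int.castRingHom ℚ) γ := by
    intro m hm g
    obtain ⟨h, hh, hC⟩ := h4 n H ∅ false
      (fun q _ _ => h2 n hn H hH q (insert q ∅) (Set.mem_insert q ∅))
      (fun hb => absurd hb (by decide)) g m 1 hm one_pos
    obtain ⟨γ, hγ, hγ'⟩ := MAIN_int h5 m hm (h⁻¹ * g) hC.1
    exact ⟨h, hh, γ, hγ, by rw [hγ', mul_inv_cancel_left]⟩
  refine ⟨key1, ?_, ?_⟩
  · intro p hp m hm ε hε g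
    obtain ⟨h, hh, hC⟩ := h4 n H {p} true
      (fun q _ hq => h3 n hn H hH p q (insert q {p}) hp (fun h => hq (by rw [h]; rfl))
        (Set.mem_insert_of_mem q rfl) (Set.mem_insert q {p}))
      (fun _ => h1 n hn H hH p hp) g m ε hm hε
    refine ⟨h, hh, h⁻¹ * g, ?_, hC.2 rfl, by rw [mul_inv_cancel_left]⟩
    choose k a ha using fun i j => (h5 m hm _).2 p hp (hC.1 i j)
    let K : ℕ := ∑ i, ∑ j, k i j
    have hK : ∀ i j, k i j ≤ K := by
      intro i j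
      have e1 : k i j ≤ ∑ j, k i j :=
        Finset.single_le_sum (f := fun j => k i j) (fun _ _ => Nat.zero_le _) (Finset.mem_univ j)
      have e2 : ∑ j, k i j ≤ K :=
        Finset.single_le_sum (f := fun i => ∑ j, k i j) (fun _ _ => Nat.zero_le _)
          (Finset.mem_univ i)
      exact e1.trans e2
    refine ⟨K, fun i j => ⟨(p : ℤ) ^ (K - k i j) * a i j, ?_⟩⟩
    have e3 : (p : ℚ) ^ K = (p : ℚ) ^ (K - k i j) * (p : ℚ) ^ (k i j) := by
      rw [← pow_add, Nat.sub_add_cancel (hK i j)]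
    rw [e3, mul_assoc, ha i j]
    push_cast
    ring
  · intro hne
    by_contra hidx
    refine hne (h6 n hn H (fun g => ?_) hidx)
    obtain ⟨h, hh, γ, -, hg⟩ := key1 1 one_pos g
    exact ⟨h, hh, γ, hg⟩

end Pool.Agent.ISL
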